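import Pool.Agent.helper50.MA.Spec1

set_option autoImplicit false

open MeasureTheory Set Filter Topology Complex
open scoped ContDiff Real

namespace MAP

noncomputable section

namespace B1aux

/-- derivative of `nsq` as a continuous bilinear form -/
def nsqL : C2 →L[ℝ] C2 →L[ℝ] ℝ :=
  (2 : ℝ) • (((innerSL ℝ : ℂ →L[ℝ] ℂ →L[ℝ] ℝ).bilinearComp (ContinuousLinearMap.fst ℝ ℂ ℂ)
      (ContinuousLinearMap.fst ℝ ℂ ℂ)) +
    ((innerSL ℝ : ℂ →L[ℝ] ℂ →L[ℝ] ℝ).bilinearComp (ContinuousLinearMap.snd ℝ ℂ ℂ)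
      (ContinuousLinearMap.snd ℝ ℂ ℂ)))

theorem nsqL_apply (x ξ : C2) : nsqL x ξ = 2 * (inner ℝ x.1 ξ.1 + inner ℝ x.2 ξ.2) := by
  simp [nsqL]
  ring

theorem hasFDerivAt_nsq (x : C2) : HasFDerivAt nsq (nsqL x) x := by
  have h1 : HasFDerivAt (fun y : C2 => ‖y.1‖ ^ 2)
      ((2 • (innerSL ℝ x.1)).comp (ContinuousLinearMap.fst ℝ ℂ ℂ)) x := by
    have := (hasStrictFDerivAt_norm_sq (x.1 : ℂ)).hasFDerivAt
    exact this.comp x (hasFDerivAt_fst)
  have h2 : HasFDerivAt (fun y : C2 => ‖y.2‖ ^ 2)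
      ((2 • (innerSL ℝ x.2)).comp (ContinuousLinearMap.snd ℝ ℂ ℂ)) x := by
    have := (hasStrictFDerivAt_norm_sq (x.2 : ℂ)).hasFDerivAt
    exact this.comp x (hasFDerivAt_snd)
  have h3 := h1.add h2
  refine h3.congr_fderiv ?_
  ext ξ <;> simp [nsqL, two_smul]

theorem fderiv_nsq : fderiv ℝ nsq = fun x => nsqL x := by
  funext x
  exact (hasFDerivAt_nsq x).fderiv

theorem contDiff_nsq : ContDiff ℝ 2 nsq := by
  unfold nsq
  exact (contDiff_fst.norm_sq ℝ).add (contDiff_snd.norm_sq ℝ)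

theorem lap_nsq (x ξ : C2) : lap nsq x ξ = 4 * nsq ξ := by
  have h : fderiv ℝ (fderiv ℝ nsq) x = nsqL := by
    rw [fderiv_nsq]
    exact nsqL.fderiv
  unfold lap D2
  rw [h, nsqL_apply, nsqL_apply]
  simp only [Prod.smul_fst, Prod.smul_snd, real_inner_self_eq_norm_sq, nsq, smul_eq_mul, norm_mul, norm_I, one_mul]
  ring

theorem lap_add_mul (g q : C2 → ℝ) (hg : ContDiff ℝ 2 g) (hq : ContDiff ℝ 2 q) (c : ℝ) (x ξ : C2) :
    lap (fun y => g y + c * (q y - 1)) x ξ = lap g x ξ + c * lap q x ξ := by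
  have h1 : fderiv ℝ (fun y => g y + c * (q y - 1)) = fun y => fderiv ℝ g y + c • fderiv ℝ q y := by
    funext y
    have hgd : HasFDerivAt g (fderiv ℝ g y) y := (hg.differentiable (by norm_num) y).hasFDerivAt
    have hqd : HasFDerivAt q (fderiv ℝ q y) y := (hq.differentiable (by norm_num) y).hasFDerivAt
    exact (hgd.add ((hqd.sub_const 1).const_mul c)).fderiv
  have hg' : Differentiable ℝ (fderiv ℝ g) :=
    (hg.fderiv_right (m := 1) (by norm_num)).differentiable (by norm_num)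
  have hq' : Differentiable ℝ (fderiv ℝ q) :=
    (hq.fderiv_right (m := 1) (by norm_num)).differentiable (by norm_num)
  have h2 : fderiv ℝ (fderiv ℝ (fun y => g y + c * (q y - 1))) x
      = fderiv ℝ (fderiv ℝ g) x + c • fderiv ℝ (fderiv ℝ q) x := by
    rw [h1]
    exact ((hg' x).hasFDerivAt.add ((hq' x).hasFDerivAt.const_smul c)).fderiv
  unfold lap D2
  rw [h2]
  simp
  ring

theorem continuous_nsq : Continuous nsq := contDiff_nsq.continuous

theorem nsq_nonneg (x : C2) : 0 ≤ nsq x := by unfold nsq; positivity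

theorem norm_sq_le_nsq (x : C2) : ‖x‖ ^ 2 ≤ nsq x := by
  unfold nsq
  rw [Prod.norm_def]
  rcases max_choice ‖x.1‖ ‖x.2‖ with h | h <;> rw [h]
  · nlinarith [sq_nonneg ‖x.2‖]
  · nlinarith [sq_nonneg ‖x.1‖]

theorem mem_cbal_iff (x : C2) : x ∈ cbal 0 1 ↔ nsq x ≤ 1 := by
  simp [cbal]

theorem mem_bal_iff (x : C2) : x ∈ bal 0 1 ↔ nsq x < 1 := by
  simp [bal]

theorem mem_sph_iff (x : C2) : x ∈ sph 0 1 ↔ nsq x = 1 := by
  simp [sph]

theorem norm_le_one {x : C2} (hx : nsq x ≤ 1) : ‖x‖ ≤ 1 := by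
  have := norm_sq_le_nsq x
  have h0 := norm_nonneg x
  nlinarith

theorem mem_closedBall {x : C2} (hx : nsq x ≤ 1) : x ∈ Metric.closedBall (0 : C2) 1 := by
  simpa using norm_le_one hx

theorem nsq_lip {x y : C2} (hx : nsq x ≤ 1) (hy : nsq y ≤ 1) : |nsq y - nsq x| ≤ 4 * ‖y - x‖ := by
  have hx1 : ‖x.1‖ ≤ 1 := (norm_fst_le x).trans (norm_le_one hx)
  have hx2 : ‖x.2‖ ≤ 1 := (norm_snd_le x).trans (norm_le_one hx)
  have hy1 : ‖y.1‖ ≤ 1 := (norm_fst_le y).trans (norm_le_one hy)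
  have hy2 : ‖y.2‖ ≤ 1 := (norm_snd_le y).trans (norm_le_one hy)
  have key : ∀ a b : ℂ, ‖a‖ ≤ 1 → ‖b‖ ≤ 1 → |‖b‖ ^ 2 - ‖a‖ ^ 2| ≤ 2 * ‖b - a‖ := by
    intro a b ha hb
    have h1 : |‖b‖ - ‖a‖| ≤ ‖b - a‖ := abs_norm_sub_norm_le b a
    have h2 : ‖b‖ ^ 2 - ‖a‖ ^ 2 = (‖b‖ - ‖a‖) * (‖b‖ + ‖a‖) := by ring
    rw [h2, abs_mul, abs_of_nonneg (by positivity : 0 ≤ ‖b‖ + ‖a‖)]
    have h3 := abs_nonneg (‖b‖ - ‖a‖)
    have h4 := norm_nonneg a
    have h5 := norm_nonneg b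
    nlinarith
  have k1 := key x.1 y.1 hx1 hy1
  have k2 := key x.2 y.2 hx2 hy2
  have n1 : ‖y.1 - x.1‖ ≤ ‖y - x‖ := by simpa using norm_fst_le (y - x)
  have n2 : ‖y.2 - x.2‖ ≤ ‖y - x‖ := by simpa using norm_snd_le (y - x)
  have e : nsq y - nsq x = (‖y.1‖ ^ 2 - ‖x.1‖ ^ 2) + (‖y.2‖ ^ 2 - ‖x.2‖ ^ 2) := by
    unfold nsq; ring
  rw [e]
  calc |(‖y.1‖ ^ 2 - ‖x.1‖ ^ 2) + (‖y.2‖ ^ 2 - ‖x.2‖ ^ 2)|
      ≤ |‖y.1‖ ^ 2 - ‖x.1‖ ^ 2| + |‖y.2‖ ^ 2 - ‖x.2‖ ^ 2| := abs_add_le _ _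
    _ ≤ 4 * ‖y - x‖ := by linarith

theorem lap_bound (g : C2 → ℝ) (M : ℝ) (x ξ : C2) (hM : ‖fderiv ℝ (fderiv ℝ g) x‖ ≤ M) :
    |lap g x ξ| ≤ 2 * M * nsq ξ := by
  have hM0 : 0 ≤ M := le_trans (ContinuousLinearMap.opNorm_nonneg _) hM
  have key : ∀ η : C2, |D2 g x η η| ≤ M * ‖η‖ ^ 2 := by
    intro η
    unfold D2
    have h1 : ‖(fderiv ℝ (fderiv ℝ g) x η) η‖ ≤ ‖fderiv ℝ (fderiv ℝ g) x‖ * ‖η‖ * ‖η‖ :=
      ContinuousLinearMap.le_opNorm₂ _ _ _
    rw [Real.norm_eq_abs] at h1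
    have h2 : ‖fderiv ℝ (fderiv ℝ g) x‖ * ‖η‖ * ‖η‖ ≤ M * ‖η‖ * ‖η‖ := by
      gcongr
    nlinarith
  have k1 := key ξ
  have k2 := key (I • ξ)
  rw [norm_smul, norm_I, one_mul] at k2
  have h3 := norm_sq_le_nsq ξ
  unfold lap
  calc |D2 g x ξ ξ + D2 g x (I • ξ) (I • ξ)| ≤ |D2 g x ξ ξ| + |D2 g x (I • ξ) (I • ξ)| := abs_add_le _ _
    _ ≤ 2 * M * nsq ξ := by nlinarith

theorem isOpen_bal : IsOpen (bal 0 1) := by
  have : bal 0 1 = nsq ⁻¹' Iio 1 := by
    ext x; simp [mem_bal_iff]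
  rw [this]
  exact isOpen_Iio.preimage continuous_nsq

theorem isClosed_cbal : IsClosed (cbal 0 1) := by
  have : cbal 0 1 = nsq ⁻¹' Iic 1 := by
    ext x; simp [mem_cbal_iff]
  rw [this]
  exact isClosed_Iic.preimage continuous_nsq

theorem bal_subset_cbal : bal 0 1 ⊆ cbal 0 1 := by
  intro x hx
  rw [mem_bal_iff] at hx
  rw [mem_cbal_iff]
  exact hx.le

/-- the translated competitor -/
theorem shift_mem (h1 : A1_stmt) (h7 : A7_stmt) (g v : C2 → ℝ) (hv : v ∈ Fam g 0 1) (h : C2) (K : ℝ)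
    (hb : ∀ x : C2, nsq x ≤ 1 → nsq (x + h) = 1 → v (x + h) - K ≤ v x)
    (hs : ∀ x : C2, nsq x = 1 → nsq (x + h) ≤ 1 → v (x + h) - K ≤ v x) :
    (fun x => if nsq (x + h) ≤ 1 then max (v x) (v (x + h) - K) else v x) ∈ Fam g 0 1 := by
  obtain ⟨hvc, hvp, hvb⟩ := hv
  set w : C2 → ℝ := fun x => if nsq (x + h) ≤ 1 then max (v x) (v (x + h) - K) else v x with hw
  have hw1 : ∀ x, nsq (x + h) ≤ 1 → w x = max (v x) (v (x + h) - K) := fun x hx => if_pos hx
  have hw2 : ∀ x, nsq x ≤ 1 → 1 ≤ nsq (x + h) → w x = v x := by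
    intro x hx0 hx
    rcases hx.eq_or_lt with h' | h'
    · rw [hw1 x h'.symm.le, max_eq_left (hb x hx0 h'.symm)]
    · exact if_neg (not_le.mpr h')
  have hcw : ContinuousOn w (cbal 0 1) := by
    set S : Set C2 := {x | nsq x ≤ 1 ∧ nsq (x + h) ≤ 1} with hS
    set T : Set C2 := {x | nsq x ≤ 1 ∧ 1 ≤ nsq (x + h)} with hT
    have hcs : Continuous fun x : C2 => nsq (x + h) := continuous_nsq.comp (continuous_add_const h)
    have hSc : IsClosed S :=
      (isClosed_le continuous_nsq continuous_const).inter (isClosed_le hcs continuous_const)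
    have hTc : IsClosed T :=
      (isClosed_le continuous_nsq continuous_const).inter (isClosed_le continuous_const hcs)
    have hun : cbal 0 1 = S ∪ T := by
      ext x
      rw [mem_cbal_iff]
      constructor
      · intro hx
        rcases le_total (nsq (x + h)) 1 with h' | h'
        · exact Or.inl ⟨hx, h'⟩
        · exact Or.inr ⟨hx, h'⟩
      · rintro (h' | h')
        · exact h'.1
        · exact h'.1
    rw [hun]
    refine ContinuousOn.union_of_isClosed ?_ ?_ hSc hTc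
    · have c1 : ContinuousOn v S := hvc.mono (fun x hx => (mem_cbal_iff x).2 hx.1)
      have c2 : ContinuousOn (fun x => v (x + h)) S := by
        refine hvc.comp (continuous_add_const h).continuousOn ?_
        intro x hx
        exact (mem_cbal_iff _).2 hx.2
      have c3 : ContinuousOn (fun x => max (v x) (v (x + h) - K)) S :=
        ContinuousOn.sup c1 (c2.sub continuousOn_const)
      refine c3.congr ?_
      intro x hx
      exact hw1 x hx.2
    · have c1 : ContinuousOn v T := hvc.mono (fun x hx => (mem_cbal_iff x).2 hx.1)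
      refine c1.congr ?_
      intro x hx
      exact hw2 x hx.1 hx.2
  refine ⟨hcw, ?_, ?_⟩
  · set U' : Set C2 := {x | nsq x < 1 ∧ nsq (x + h) < 1} with hU'
    have hcs : Continuous fun x : C2 => nsq (x + h) := continuous_nsq.comp (continuous_add_const h)
    have hU'o : IsOpen U' :=
      (isOpen_lt continuous_nsq continuous_const).inter (isOpen_lt hcs continuous_const)
    have hsub : U' ⊆ bal 0 1 := fun x hx => (mem_bal_iff x).2 hx.1
    have p1 : PshOn U' v := (h1 _ isOpen_bal v v hvp hvp).2.2.2.2.1 U' hsub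
    have p2 : PshOn {x | x + h ∈ bal 0 1} (fun x => v (x + h)) :=
      (h1 _ isOpen_bal v v hvp hvp).2.2.2.2.2.2 h
    have ho2 : IsOpen {x : C2 | x + h ∈ bal 0 1} := isOpen_bal.preimage (continuous_add_const h)
    have p3 : PshOn {x | x + h ∈ bal 0 1} (fun x => v (x + h) + (-K)) :=
      (h1 _ ho2 _ _ p2 p2).2.2.2.1 (-K)
    have p4 : PshOn U' (fun x => v (x + h) + (-K)) := by
      refine (h1 _ ho2 _ _ p3 p3).2.2.2.2.1 U' ?_
      intro x hx
      exact (mem_bal_iff _).2 hx.2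
    have p5 := (h1 _ hU'o _ _ p1 p4).1
    have p6 : PshOn U' w := by
      refine (h1 _ hU'o _ _ p5 p5).2.2.2.2.2.1 w ?_
      intro x hx
      rw [hw1 x hx.2.le, sub_eq_add_neg]
    refine h7 (bal 0 1) U' v w isOpen_bal hU'o hsub hvp (hcw.mono bal_subset_cbal) p6 ?_ ?_
    · intro x hx
      rcases le_total (nsq (x + h)) 1 with h' | h'
      · rw [hw1 x h']; exact le_max_left _ _
      · rw [hw2 x ((mem_bal_iff x).1 hx).le h']
    · intro x hx hx'
      rw [mem_bal_iff] at hx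
      refine hw2 x hx.le ?_
      by_contra hcon
      exact hx' ⟨hx, not_le.mp hcon⟩
  · intro x hx
    have hx1 : nsq x = 1 := (mem_sph_iff x).1 hx
    have hvx := hvb x hx
    rcases le_total (nsq (x + h)) 1 with h' | h'
    · rw [hw1 x h', max_eq_left (hs x hx1 h')]
      exact hvx
    · rw [hw2 x hx1.le h']
      exact hvx

end B1aux

open B1aux

theorem B1 (h1 : A1_stmt) (h2 : A2_stmt) (h3 : A3_stmt) (h7 : A7_stmt) (h8 : A8_stmt) : B1_stmt := by
  intro g hg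
  have hg2 : ContDiff ℝ 2 g := contDiff_infty.1 hg 2
  have hK : IsCompact (Metric.closedBall (0 : C2) 1) := isCompact_closedBall 0 1
  have hcd1 : Continuous (fderiv ℝ g) := hg2.continuous_fderiv (by norm_num)
  have hcd2 : Continuous (fderiv ℝ (fderiv ℝ g)) :=
    (hg2.fderiv_right (m := 1) (by norm_num)).continuous_fderiv (by norm_num)
  obtain ⟨M1, hM1⟩ := hK.exists_bound_of_continuousOn hcd1.continuousOn
  have hcn : Continuous (fun x : C2 => ‖fderiv ℝ (fderiv ℝ g) x‖) :=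
    (continuous_norm (E := C2 →L[ℝ] C2 →L[ℝ] ℝ)).comp hcd2
  obtain ⟨M2, hM2'⟩ := hK.exists_bound_of_continuousOn hcn.continuousOn
  have hM2 : ∀ x ∈ Metric.closedBall (0 : C2) 1, ‖fderiv ℝ (fderiv ℝ g) x‖ ≤ M2 :=
    fun x hx => (le_abs_self _).trans (hM2' x hx)
  have h0m : (0 : C2) ∈ Metric.closedBall (0 : C2) 1 := by simp
  have hM10 : 0 ≤ M1 := (norm_nonneg _).trans (hM1 0 h0m)
  have hM20 : 0 ≤ M2 := le_trans (ContinuousLinearMap.opNorm_nonneg _) (hM2 0 h0m)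
  -- g is Lipschitz
  have hgl : ∀ x y : C2, nsq x ≤ 1 → nsq y ≤ 1 → |g y - g x| ≤ M1 * ‖y - x‖ := by
    intro x y hx hy
    have := (convex_closedBall (0 : C2) 1).norm_image_sub_le_of_norm_fderiv_le (𝕜 := ℝ) (f := g) (C := M1)
      (fun z _ => (hg2.differentiable (by norm_num) z)) (fun z hz => hM1 z hz)
      (mem_closedBall hx) (mem_closedBall hy)
    simpa [Real.norm_eq_abs] using this
  set C : ℝ := M2 + 1 with hC
  have hC0 : 0 < C := by positivity
  set bm : C2 → ℝ := fun y => g y + C * (nsq y - 1) with hbm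
  set bp : C2 → ℝ := fun y => g y + (-C) * (nsq y - 1) with hbp
  have cbm : ContDiff ℝ 2 bm := hg2.add (contDiff_const.mul (contDiff_nsq.sub contDiff_const))
  have cbp : ContDiff ℝ 2 bp := hg2.add (contDiff_const.mul (contDiff_nsq.sub contDiff_const))
  have lbm : ∀ x ∈ bal 0 1, ∀ ξ : C2, 0 ≤ lap bm x ξ := by
    intro x hx ξ
    rw [mem_bal_iff] at hx
    rw [hbm, lap_add_mul g nsq hg2 contDiff_nsq, lap_nsq]
    have hb := lap_bound g M2 x ξ (hM2 x (mem_closedBall hx.le))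
    rw [abs_le] at hb
    have hn := nsq_nonneg ξ
    nlinarith [hb.1]
  have lbp : ∀ x ∈ bal 0 1, ∃ ξ : C2, lap bp x ξ < 0 := by
    intro x hx
    rw [mem_bal_iff] at hx
    refine ⟨e1, ?_⟩
    rw [hbp, lap_add_mul g nsq hg2 contDiff_nsq, lap_nsq]
    have hb := lap_bound g M2 x e1 (hM2 x (mem_closedBall hx.le))
    have he : nsq e1 = 1 := by simp [nsq, e1]
    rw [he] at hb ⊢
    rw [abs_le] at hb
    nlinarith [hb.2]
  have hbmF : bm ∈ Fam g 0 1 := by
    refine ⟨cbm.continuous.continuousOn, ?_, ?_⟩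
    · exact (h3.2 (bal 0 1) bm isOpen_bal cbm.contDiffOn).2 lbm
    · intro x hx
      rw [mem_sph_iff] at hx
      simp [hbm, hx]
  have hup : ∀ v ∈ Fam g 0 1, ∀ x ∈ cbal 0 1, v x ≤ bp x := by
    intro v hv
    obtain ⟨hvc, hvp, hvb⟩ := hv
    refine h8 0 1 v bp one_pos hvp hvc cbp.continuous.continuousOn cbp.contDiffOn lbp ?_
    intro x hx
    have h' := hvb x hx
    rw [mem_sph_iff] at hx
    simpa [hbp, hx] using h'
  set u : C2 → ℝ := fun x => sSup ((fun v : C2 → ℝ => v x) '' Fam g 0 1) with hu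
  have hlub : ∀ x ∈ cbal 0 1, IsLUB ((fun v : C2 → ℝ => v x) '' Fam g 0 1) (u x) := by
    intro x hx
    refine isLUB_csSup ⟨_, ⟨bm, hbmF, rfl⟩⟩ ⟨bp x, ?_⟩
    rintro _ ⟨v, hv, rfl⟩
    exact hup v hv x hx
  have hle : ∀ v ∈ Fam g 0 1, ∀ x ∈ cbal 0 1, v x ≤ u x := fun v hv x hx => (hlub x hx).1 ⟨v, hv, rfl⟩
  have hub : ∀ x ∈ cbal 0 1, u x ≤ bp x := by
    intro x hx
    refine (hlub x hx).2 ?_
    rintro _ ⟨v, hv, rfl⟩
    exact hup v hv x hx
  have hlb : ∀ x ∈ cbal 0 1, bm x ≤ u x := hle bm hbmF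
  -- the Lipschitz estimate
  set K : ℝ := M1 + 4 * C with hKdef
  have hK0 : 0 ≤ K := by positivity
  have hkey : ∀ x h : C2, nsq x ≤ 1 → nsq (x + h) ≤ 1 → u (x + h) ≤ u x + K * ‖h‖ := by
    intro x h hx hxh
    refine (hlub (x + h) ((mem_cbal_iff _).2 hxh)).2 ?_
    rintro _ ⟨v0, hv0, rfl⟩
    -- replace v0 by the max with the lower barrier
    set v : C2 → ℝ := fun y => max (v0 y) (bm y) with hv
    have hvF : v ∈ Fam g 0 1 := by
      refine ⟨ContinuousOn.sup hv0.1 hbmF.1, (h1 _ isOpen_bal _ _ hv0.2.1 hbmF.2.1).1, ?_⟩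
      intro y hy
      exact max_le (hv0.2.2 y hy) (hbmF.2.2 y hy)
    have hvbm : ∀ y, bm y ≤ v y := fun y => le_max_right _ _
    have hvbp : ∀ y, nsq y ≤ 1 → v y ≤ bp y := fun y hy => hup v hvF y ((mem_cbal_iff y).2 hy)
    have hb : ∀ y : C2, nsq y ≤ 1 → nsq (y + h) = 1 → v (y + h) - K * ‖h‖ ≤ v y := by
      intro y hy hyh
      have a1 : v (y + h) ≤ g (y + h) := by
        have := hvbp (y + h) hyh.le
        simpa [hbp, hyh] using this
      have a2 := hvbm y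
      have a3 := hgl y (y + h) hy hyh.le
      have a4 := nsq_lip hy hyh.le
      have e : y + h - y = h := by abel
      rw [e] at a3 a4
      rw [abs_le] at a3 a4
      simp only [hbm] at a2
      rw [hyh] at a4
      nlinarith [a3.1, a3.2, a4.1, a4.2, norm_nonneg h]
    have hs : ∀ y : C2, nsq y = 1 → nsq (y + h) ≤ 1 → v (y + h) - K * ‖h‖ ≤ v y := by
      intro y hy hyh
      have a1 := hvbp (y + h) hyh
      have a2 := hvbm y
      have a3 := hgl y (y + h) hy.le hyh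
      have a4 := nsq_lip hy.le hyh
      have e : y + h - y = h := by abel
      rw [e] at a3 a4
      rw [abs_le] at a3 a4
      simp only [hbm] at a2
      simp only [hbp] at a1
      rw [hy] at a4 a2
      nlinarith [a3.1, a3.2, a4.1, a4.2, norm_nonneg h]
    have hw := shift_mem h1 h7 g v hvF h (K * ‖h‖) hb hs
    have hwx := hle _ hw x ((mem_cbal_iff x).2 hx)
    simp only [if_pos hxh] at hwx
    have b1 : v (x + h) - K * ‖h‖ ≤ u x := (le_max_right _ _).trans hwx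
    have b2 : v0 (x + h) ≤ v (x + h) := le_max_left _ _
    show v0 (x + h) ≤ u x + K * ‖h‖
    linarith
  have hlip : ∀ x ∈ cbal 0 1, ∀ y ∈ cbal 0 1, |u x - u y| ≤ K * ‖x - y‖ := by
    intro x hx y hy
    rw [mem_cbal_iff] at hx hy
    have a1 := hkey x (y - x) hx (by simpa using hy)
    have a2 := hkey y (x - y) hy (by simpa using hx)
    rw [add_sub_cancel] at a1 a2
    rw [norm_sub_rev] at a1
    rw [abs_le]
    constructor <;> linarith
  have hcu : ContinuousOn u (cbal 0 1) := by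
    have : LipschitzOnWith K.toNNReal u (cbal 0 1) := by
      refine LipschitzOnWith.of_dist_le_mul ?_
      intro x hx y hy
      rw [Real.dist_eq, dist_eq_norm, Real.coe_toNNReal K hK0]
      exact hlip x hx y hy
    exact this.continuousOn
  refine ⟨u, K, hK0, ⟨hcu, ?_, ?_, hle⟩, hlip, ?_⟩
  · refine h2.1 (bal 0 1) {v : C2 → ℝ // v ∈ Fam g 0 1} (fun v => v.1) u ⟨⟨bm, hbmF⟩⟩ isOpen_bal
      (fun v => v.2.2.1) (hcu.mono bal_subset_cbal) ?_
    intro x hx
    have := hlub x (bal_subset_cbal hx)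
    have e : (range fun i : {v : C2 → ℝ // v ∈ Fam g 0 1} => i.1 x) = (fun v : C2 → ℝ => v x) '' Fam g 0 1 := by
      ext t
      constructor
      · rintro ⟨⟨v, hv⟩, rfl⟩
        exact ⟨v, hv, rfl⟩
      · rintro ⟨v, hv, rfl⟩
        exact ⟨⟨v, hv⟩, rfl⟩
    rw [e]
    exact this
  · intro x hx
    have hx' : x ∈ cbal 0 1 := (mem_cbal_iff x).2 ((mem_sph_iff x).1 hx).le
    have a1 := hlb x hx'
    have a2 := hub x hx'
    rw [mem_sph_iff] at hx
    simp only [hbm, hbp, hx, sub_self, mul_zero, add_zero] at a1 a2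
    exact le_antisymm a2 a1
  · intro x hx
    have a1 := hlb x hx
    have a2 := hub x hx
    rw [mem_cbal_iff] at hx
    simp only [hbm, hbp] at a1 a2
    have hCK : C ≤ K := by rw [hKdef]; linarith
    have hn : 0 ≤ 1 - nsq x := by linarith
    have hm : C * (1 - nsq x) ≤ K * (1 - nsq x) := mul_le_mul_of_nonneg_right hCK hn
    rw [abs_le]
    constructor <;> nlinarith

end

end MAP
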